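import Pool.Agent.MP_5c28a4_al.H89S.Spec

/-!
Tensor powers of the relation module are Noetherian under the endomorphisms over the boundary map.
-/

set_option autoImplicit false

namespace Pool.Agent.MP_5c28a4_al.H89S

open scoped commutatorElement TensorProduct

namespace SnA

section Abs

variable {A B S : Type} [AddCommGroup A] [AddCommGroup B]

/-- ascending chain condition for invariant subgroups -/
def Noe (F : S → A →ₗ[ℤ] A) : Prop := ∀ c : ℕ → Submodule ℤ A, Monotone c →
  (∀ n s, ∀ x ∈ c n, F s x ∈ c n) → ∃ n, ∀ k, n ≤ k → c k = c n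

theorem filt {K : Type} [Fintype K] (F : S → A →ₗ[ℤ] A) (G : S → B →ₗ[ℤ] B) (hG : Noe G)
    (w : K → ℕ) (E : K → B →ₗ[ℤ] A) (htop : ∀ x, x ∈ ⨆ k, LinearMap.range (E k))
    (h : ∀ s k b, F s (E k b) - E k (G s b) ∈
      ⨆ k' ∈ {k' | w k < w k'}, LinearMap.range (E k')) : Noe F := by
  classical
  intro c hc hi
  have key : ∀ T : Finset K, (∀ k ∈ T, ∀ k', w k < w k' → k' ∈ T) →
      (∀ s, ∀ x ∈ ⨆ k ∈ T, LinearMap.range (E k), F s x ∈ ⨆ k ∈ T, LinearMap.range (E k)) ∧
      ∃ n, ∀ k, n ≤ k → ∀ x ∈ c k, x ∈ (⨆ k ∈ T, LinearMap.range (E k)) → x ∈ c n := by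
    intro T
    induction T using Finset.induction_on_min_value w with
    | empty => exact fun _ => ⟨by simp, 0, fun k _ x _ hx => by
        obtain rfl : x = 0 := by simpa using hx
        exact (c 0).zero_mem⟩
    | insert a T ha hmin ih =>
      intro hT
      have up : ∀ k', w a < w k' → k' ∈ T := fun k' hk =>
        (Finset.mem_insert.1 (hT a (Finset.mem_insert_self _ _) k' hk)).resolve_left
          (by rintro rfl; exact lt_irrefl _ hk)
      obtain ⟨i1, n1, i2⟩ := ih fun k hk k' h' => up k' ((hmin k hk).trans_lt h')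
      rw [Finset.iSup_insert]
      set U := ⨆ k ∈ T, LinearMap.range (E k) with hU
      have h1 : ∀ s b, F s (E a b) - E a (G s b) ∈ U := fun s b =>
        (iSup₂_le fun k' hk => le_iSup₂_of_le (f := fun k (_ : k ∈ T) => LinearMap.range (E k))
          k' (up k' hk) le_rfl : _ ≤ U) (h s a b)
      constructor
      · intro s x hx
        obtain ⟨_, ⟨b, rfl⟩, u, hu, rfl⟩ := Submodule.mem_sup.1 hx
        refine Submodule.mem_sup.2 ⟨_, ⟨G s b, rfl⟩, _, U.add_mem (h1 s b) (i1 s u hu), ?_⟩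
        rw [map_add]
        abel
      · obtain ⟨n2, i3⟩ := hG (fun n => (c n ⊔ U).comap (E a))
          (fun i j hij => Submodule.comap_mono (sup_le_sup_right (hc hij) _)) (by
            intro n s b hb
            obtain ⟨y, hy, u, hu, e⟩ := Submodule.mem_sup.1 (Submodule.mem_comap.1 hb)
            refine Submodule.mem_comap.2 (Submodule.mem_sup.2
              ⟨_, hi n s y hy, _, U.sub_mem (i1 s u hu) (h1 s b), ?_⟩)
            rw [← e, map_add]
            abel)
        refine ⟨max n1 n2, fun k hk x hx hx' => ?_⟩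
        obtain ⟨_, ⟨b, rfl⟩, u, hu, rfl⟩ := Submodule.mem_sup.1 hx'
        have h2 : b ∈ (c k ⊔ U).comap (E a) := Submodule.mem_comap.2
          (Submodule.mem_sup.2 ⟨_, hx, _, U.neg_mem hu, by abel⟩)
        rw [i3 k ((le_max_right _ _).trans hk)] at h2
        obtain ⟨y, hy, u', hu', e⟩ := Submodule.mem_sup.1 (Submodule.mem_comap.1 h2)
        have h3 : u' + u ∈ c k := by
          have := (c k).sub_mem hx (hc ((le_max_right _ _).trans hk) hy)
          rwa [← e, show y + u' + u - y = u' + u by abel] at this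
        rw [← e, add_assoc]
        exact (c _).add_mem (hc (le_max_right _ _) hy)
          (hc (le_max_left _ _) (i2 k ((le_max_left _ _).trans hk) _ h3 (U.add_mem hu' hu)))
  obtain ⟨-, n, hn⟩ := key Finset.univ fun _ _ _ _ => Finset.mem_univ _
  exact ⟨n, fun k hk => le_antisymm (fun x hx => hn k hk x hx (by simpa using htop x)) (hc hk)⟩

theorem retr {M : Type} [Monoid M] (F : S → A →ₗ[ℤ] A) (G : M →* Module.End ℤ B)
    (ι : A →ₗ[ℤ] B) (r : B →ₗ[ℤ] A) (hr : ∀ x, r (ι x) = x)
    (h : ∀ φ, ∃ s, ∀ x, r (G φ (ι x)) = F s x) (hG : Noe fun φ => G φ) : Noe F := by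
  intro c hc hi
  obtain ⟨n, hn⟩ := hG (fun n => Submodule.span ℤ {y | ∃ φ, ∃ x ∈ c n, y = G φ (ι x)})
    (fun i j hij => Submodule.span_mono fun _ ⟨φ, x, hx, e⟩ => ⟨φ, x, hc hij hx, e⟩) (by
      intro n ψ y hy
      refine Submodule.mem_comap.1 (Submodule.span_le.2 ?_ hy)
      rintro _ ⟨φ, x, hx, rfl⟩
      exact Submodule.subset_span ⟨ψ * φ, x, hx, by simp⟩)
  refine ⟨n, fun k hk => le_antisymm (fun x hx => ?_) (hc hk)⟩
  have h1 : ι x ∈ Submodule.span ℤ {y | ∃ φ, ∃ x ∈ c k, y = G φ (ι x)} :=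
    Submodule.subset_span ⟨1, x, hx, by simp⟩
  rw [hn k hk] at h1
  rw [← hr x]
  refine (Submodule.span_le (p := Submodule.comap r (c n))).2 ?_ h1
  rintro _ ⟨φ, x, hx, rfl⟩
  obtain ⟨s, hs⟩ := h φ
  exact Submodule.mem_comap.2 (hs x ▸ hi n s x hx)

theorem noe_pi {J : Type} [Fintype J] (F : S → A →ₗ[ℤ] A) (hF : Noe F) :
    Noe fun s => (F s).compLeft J := by
  classical
  refine filt _ F hF (fun _ : J => 0) (fun j => LinearMap.single ℤ (fun _ => A) j) (fun x => ?_)
    fun s k b => ?_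
  · rw [← Finset.univ_sum_single x]
    exact Submodule.sum_mem _ fun j _ => Submodule.mem_iSup_of_mem j ⟨x j, rfl⟩
  · convert Submodule.zero_mem _
    ext j
    by_cases hj : j = k <;> simp [hj]

end Abs

section Ten

variable {H : Type} [Group H] {m : ℕ}

/-- the product of the slot images -/
noncomputable def prd (H : Type) [Group H] (m : ℕ) :
    MultilinearMap ℤ (fun _ : Fin m => QQ H) (QQ (Fin m → H)) :=
  (MultilinearMap.mkPiAlgebraFin ℤ m (QQ (Fin m → H))).compLinearMap fun l =>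
    (MonoidAlgebra.mapDomainRingHom ℤ
      (MonoidHom.mulSingle (fun _ : Fin m => H) l)).toAddMonoidHom.toIntLinearMap

theorem prd_nrm (s : QQ H) : prd H m (fun _ => s) = nrm m s := rfl

theorem prd_of (h : Fin m → H) :
    prd H m (fun l => MonoidAlgebra.single (h l) 1) = MonoidAlgebra.single h 1 := by
  have h1 : (List.ofFn fun l => Pi.mulSingle (M := fun _ => H) l (h l)).prod = h := by
    funext j
    rw [Pi.list_prod_apply, List.ofFn_eq_map, List.map_map,
      List.prod_map_eq_pow_single j _ (fun l hl _ => by simp [hl.symm])]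
    simp
  conv_rhs => rw [← h1, ← MonoidAlgebra.of_apply, map_list_prod, List.map_ofFn]
  simp [prd, Function.comp_def]

theorem prd_mul (h : Fin m → H) (z : Fin m → QQ H) :
    prd H m (fun l => MonoidAlgebra.single (h l) 1 * z l) =
      MonoidAlgebra.single h 1 * prd H m z := by
  have : (prd H m).compLinearMap (fun l => LinearMap.mulLeft ℤ (MonoidAlgebra.single (h l) 1)) =
      (LinearMap.mulLeft ℤ (MonoidAlgebra.single h 1)).compMultilinearMap (prd H m) := by
    refine Module.Basis.ext_multilinear (fun _ => MonoidAlgebra.basis H ℤ) fun v => ?_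
    simp [prd_of, MonoidAlgebra.single_mul_single, prd_of (h * v) |>.symm]
  exact DFunLike.congr_fun this z

variable {P X S : Type} [AddCommGroup P] [Fintype X]

theorem tens (β : X → QQ H →ₗ[ℤ] P) (w : X → ℕ) (σ : S → QQ H) (φ : S → P →ₗ[ℤ] P)
    (hN : Noe fun s => LinearMap.mulRight ℤ (nrm m (σ s)))
    (htop : ∀ z, ∃ Y : X → QQ H, z = ∑ x, β x (Y x))
    (h : ∀ s x y, ∃ Y : X → QQ H, φ s (β x y) = β x (y * σ s) + ∑ x', β x' (Y x') ∧
      ∀ x', w x' ≤ w x → Y x' = 0) :
    Noe fun s => (PiTensorProduct.map fun _ : Fin m => φ s) := by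
  classical
  let E : (Fin m → X) → QQ (Fin m → H) →ₗ[ℤ] ⨂[ℤ] _ : Fin m, P := fun f =>
    (MonoidAlgebra.basis (Fin m → H) ℤ).constr ℤ fun g =>
      PiTensorProduct.tprod ℤ fun l => β (f l) (MonoidAlgebra.single (g l) 1)
  have E1 : ∀ f g, E f (MonoidAlgebra.single g 1) =
      PiTensorProduct.tprod ℤ fun l => β (f l) (MonoidAlgebra.single (g l) 1) := fun f g =>
    (MonoidAlgebra.basis (Fin m → H) ℤ).constr_basis ℤ _ g
  have E2 : ∀ f y, E f (prd H m y) = PiTensorProduct.tprod ℤ fun l => β (f l) (y l) := by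
    intro f y
    have : (E f).compMultilinearMap (prd H m) =
        (PiTensorProduct.tprod ℤ).compLinearMap fun l => β (f l) := by
      refine Module.Basis.ext_multilinear (fun _ => MonoidAlgebra.basis H ℤ) fun v => ?_
      simp [prd_of, E1]
    exact DFunLike.congr_fun this y
  have E3 : ∀ Y : Fin m → X → QQ H, (PiTensorProduct.tprod ℤ fun l => ∑ x, β x (Y l x)) =
      ∑ f : Fin m → X, E f (prd H m fun l => Y l (f l)) := fun Y => by
    rw [MultilinearMap.map_sum]
    simp only [E2]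
  refine filt _ _ hN (fun f : Fin m → X => ∑ l, w (f l)) E (fun t => ?_) fun s f b => ?_
  · induction t using PiTensorProduct.induction_on with
    | smul_tprod r z =>
      choose Y hY using fun l => htop (z l)
      rw [funext hY, E3]
      exact Submodule.smul_mem _ _
        (Submodule.sum_mem _ fun f _ => Submodule.mem_iSup_of_mem f ⟨_, rfl⟩)
    | add x y hx hy => exact Submodule.add_mem _ hx hy
  · induction b using MonoidAlgebra.induction_on with
    | of g =>
      choose Y h1 h2 using fun l => h s (f l) (MonoidAlgebra.single (g l) 1)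
      have h3 : ∀ l, φ s (β (f l) (MonoidAlgebra.single (g l) 1)) = ∑ x, β x
          (Function.update (Y l) (f l) (MonoidAlgebra.single (g l) 1 * σ s) x) := fun l => by
        rw [h1, ← Finset.add_sum_erase _ _ (Finset.mem_univ (f l)),
          ← Finset.add_sum_erase _ _ (Finset.mem_univ (f l)), h2 l _ le_rfl, map_zero, zero_add,
          Function.update_self]
        congr 1
        exact Finset.sum_congr rfl fun x hx => by
          rw [Function.update_of_ne (Finset.ne_of_mem_erase hx)]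
      rw [MonoidAlgebra.of_apply, E1, PiTensorProduct.map_tprod, funext h3, E3,
        LinearMap.mulRight_apply, ← prd_nrm, ← prd_mul,
        ← Finset.add_sum_erase _ _ (Finset.mem_univ f)]
      simp only [Function.update_self, add_sub_cancel_left]
      refine Submodule.sum_mem _ fun f' hf' => ?_
      by_cases hc : ∀ l, f' l ≠ f l → w (f l) < w (f' l)
      · obtain ⟨l, hl⟩ := Function.ne_iff.1 (Finset.ne_of_mem_erase hf')
        refine Submodule.mem_iSup_of_mem f' (Submodule.mem_iSup_of_mem ?_ ⟨_, rfl⟩)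
        refine Finset.sum_lt_sum (f := fun l => w (f l)) (g := fun l => w (f' l)) (fun i _ => ?_)
          ⟨l, Finset.mem_univ _, hc l hl⟩
        by_cases hi : f' i = f i
        · rw [hi]
        · exact (hc i hi).le
      · push Not at hc
        obtain ⟨l, h4, h5⟩ := hc
        rw [(prd H m).map_coord_zero l (by rw [Function.update_of_ne h4, h2 l _ h5]), map_zero]
        exact Submodule.zero_mem _
    | add x y hx hy =>
      convert Submodule.add_mem _ hx hy using 1
      simp only [map_add]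
      abel
    | smul r x hx =>
      convert Submodule.smul_mem _ r hx using 1
      simp only [map_smul, smul_sub]

end Ten

section Grp

variable {Γ I : Type} [Group Γ] [Fintype I]

/-- augmentation -/
noncomputable def eps (Γ : Type) [Group Γ] : QQ Γ →ₐ[ℤ] ℤ := MonoidAlgebra.lift ℤ ℤ Γ 1

theorem eps_of (g : Γ) : eps Γ (MonoidAlgebra.of ℤ Γ g) = 1 := by simp [eps]

theorem del_apply (γ : I → Γ) (x : I → QQ Γ) :
    del γ x = ∑ i, x i * (MonoidAlgebra.of ℤ Γ (γ i) - 1) := by
  simp [del, Fintype.linearCombination_apply]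

theorem del_single [DecidableEq I] (γ : I → Γ) (i : I) (r : QQ Γ) :
    del γ (Pi.single i r) = r * (MonoidAlgebra.of ℤ Γ (γ i) - 1) := by
  simp [del]

theorem eps_del (γ : I → Γ) (x : I → QQ Γ) : eps Γ (del γ x) = 0 := by
  simp only [del_apply, map_sum, map_mul, map_sub, eps_of, map_one, sub_self, mul_zero,
    Finset.sum_const_zero]

theorem cl (γ : I → Γ) (S : Set I) {c : Γ} (hc : c ∈ Subgroup.closure (γ '' S)) :
    ∃ p : I → QQ Γ, (∀ b ∉ S, p b = 0) ∧ del γ p = MonoidAlgebra.of ℤ Γ c - 1 := by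
  classical
  induction hc using Subgroup.closure_induction with
  | mem x hx =>
    obtain ⟨i, hi, rfl⟩ := hx
    exact ⟨Pi.single i 1, fun b hb => Pi.single_eq_of_ne (by rintro rfl; exact hb hi) _,
      by rw [del_single, one_mul]⟩
  | one => exact ⟨0, fun _ _ => rfl, by rw [map_zero, map_one, sub_self]⟩
  | mul x y _ _ hx hy =>
    obtain ⟨p, p1, p2⟩ := hx
    obtain ⟨q, q1, q2⟩ := hy
    refine ⟨p + MonoidAlgebra.of ℤ Γ x • q, fun b hb => by simp [p1 b hb, q1 b hb], ?_⟩
    rw [map_add, map_smul, p2, q2, map_mul, smul_eq_mul]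
    noncomm_ring
  | inv x _ hx =>
    obtain ⟨p, p1, p2⟩ := hx
    refine ⟨-(MonoidAlgebra.of ℤ Γ x⁻¹ • p), fun b hb => by simp [p1 b hb], ?_⟩
    rw [map_neg, map_smul, p2, smul_eq_mul, mul_sub, ← map_mul, inv_mul_cancel, map_one, mul_one,
      neg_sub]

theorem sec (γ : I → Γ) (h : Subgroup.closure (Set.range γ) = ⊤) :
    ∃ σ : QQ Γ →ₗ[ℤ] I → QQ Γ, ∀ x, del γ (σ x) = x - (eps Γ x : ℤ) := by
  choose p _ hp using fun g : Γ => cl γ Set.univ (c := g) (by rw [Set.image_univ, h]; trivial)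
  refine ⟨(MonoidAlgebra.basis Γ ℤ).constr ℤ p, fun x => ?_⟩
  induction x using MonoidAlgebra.induction_on with
  | of g =>
    rw [eps_of, Int.cast_one, ← hp]
    exact congrArg _ ((MonoidAlgebra.basis Γ ℤ).constr_basis ℤ p g)
  | add x y hx hy =>
    simp only [map_add, hx, hy, Int.cast_add]
    abel
  | smul r x hx =>
    rw [map_smul, map_zsmul, hx, map_zsmul, smul_sub, smul_eq_mul r (eps Γ x), Int.cast_mul,
      zsmul_eq_mul ((eps Γ x : ℤ) : QQ Γ) r]

omit [Fintype I] in
theorem layers (b : BVn) (hfg : Group.FG Γ) (hv : VN Γ) (γ : I → Γ) :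
    ∃ (H : Subgroup Γ) (K : Type) (_ : Fintype K) (κ : K → Γ) (w : I ⊕ K → ℕ), H.FiniteIndex ∧
      ∀ a, ∀ h ∈ H, ⁅(Sum.elim γ κ a)⁻¹, h⁻¹⁆ ∈
        Subgroup.closure (Sum.elim γ κ '' {a' | w a < w a'}) := by
  obtain ⟨-, H, d, hn, hf, hd⟩ := id hv
  choose T hT using fun n => b.fg Γ hfg hv (H.lowerCentralSeries n)
  let κ : ((i : Fin d) × T i) → Γ := fun k => k.2
  let w : I ⊕ ((i : Fin d) × T i) → ℕ := Sum.elim (fun _ => 0) fun k => k.1 + 1
  have h1 : ∀ n, H.lowerCentralSeries n ≤ Subgroup.closure (Sum.elim γ κ '' {a' | n < w a'}) := by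
    intro n
    rcases lt_or_ge n d with h | h
    · rw [← hT]
      exact Subgroup.closure_mono fun t ht => ⟨Sum.inr ⟨⟨n, h⟩, ⟨t, ht⟩⟩, Nat.lt_succ_self n, rfl⟩
    · exact ((H.lowerCentralSeries_antitone h).trans hd).trans bot_le
  refine ⟨H, _, inferInstance, κ, w, hf, fun a h hh => h1 _ ?_⟩
  rcases a with i | ⟨i, t, ht⟩
  · rw [commutatorElement_def]
    exact H.mul_mem (hn.conj_mem _ (H.inv_mem hh) _) (H.inv_mem (H.inv_mem hh))
  · refine Subgroup.commutator_mem_commutator (Subgroup.inv_mem _ ?_) (H.inv_mem hh)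
    rw [← hT]
    exact Subgroup.subset_closure ht

/-- the group ring of a subgroup -/
noncomputable def inc (H : Subgroup Γ) : QQ H →+* QQ Γ := MonoidAlgebra.mapDomainRingHom ℤ H.subtype

theorem inc_of (H : Subgroup Γ) (h : H) :
    inc H (MonoidAlgebra.of ℤ H h) = MonoidAlgebra.of ℤ Γ h := by simp [inc]

theorem eps_inc (H : Subgroup Γ) (s : QQ H) : eps Γ (inc H s) = s.coeff.sum fun _ a => a := by
  have : eps Γ (inc H s) = eps H s := by
    induction s using MonoidAlgebra.induction_on with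
    | of g => rw [inc_of, eps_of, eps_of]
    | add x y hx hy => simp only [map_add, hx, hy]
    | smul r x hx => simp only [map_zsmul, hx]
  rw [this]
  simp [eps, MonoidAlgebra.lift_apply]

theorem dec (H : Subgroup Γ) [Fintype (Γ ⧸ H)] (u : QQ Γ) :
    ∃ y : Γ ⧸ H → QQ H, u = ∑ q, MonoidAlgebra.of ℤ Γ q.out * inc H (y q) := by
  classical
  induction u using MonoidAlgebra.induction_on with
  | of g =>
    refine ⟨Pi.single (g : Γ ⧸ H) (MonoidAlgebra.of ℤ H
      ⟨(g : Γ ⧸ H).out⁻¹ * g, QuotientGroup.eq.1 (QuotientGroup.out_eq' _)⟩), ?_⟩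
    rw [Finset.sum_eq_single (g : Γ ⧸ H) (fun q _ hq => by simp [Pi.single_eq_of_ne hq]) (by simp),
      Pi.single_eq_same, inc_of, ← map_mul, mul_inv_cancel_left]
  | add x y hx hy =>
    obtain ⟨p, rfl⟩ := hx
    obtain ⟨q, rfl⟩ := hy
    exact ⟨p + q, by simp [mul_add, Finset.sum_add_distrib]⟩
  | smul r x hx =>
    obtain ⟨p, rfl⟩ := hx
    exact ⟨r • p, by simp only [Finset.smul_sum, Pi.smul_apply, map_zsmul, mul_smul_comm]⟩

/-- endomorphisms that cover a right multiplication -/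
def MM (γ : I → Γ) : Submonoid (Module.End (QQ Γ) (I → QQ Γ)) where
  carrier := {φ | ∃ u : QQ Γ, eps Γ u = 1 ∧ ∀ x, del γ (φ x) = del γ x * u}
  one_mem' := ⟨1, map_one _, fun _ => (mul_one _).symm⟩
  mul_mem' := fun {φ ψ} ⟨u, u1, u2⟩ ⟨v, v1, v2⟩ => ⟨v * u, by rw [map_mul, u1, v1, one_mul],
    fun x => by rw [Module.End.mul_apply, u2, v2, mul_assoc]⟩

/-- diagonal action on a sum of tensor powers -/
noncomputable def GG (γ : I → Γ) (m : ℕ) (J : Type) :
    MM γ →* Module.End ℤ (J → ⨂[ℤ] _ : Fin m, (I → QQ Γ)) where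
  toFun φ := (PiTensorProduct.map fun _ : Fin m => φ.1.restrictScalars ℤ).compLeft J
  map_one' := by
    ext1 x
    funext j
    exact DFunLike.congr_fun PiTensorProduct.map_id (x j)
  map_mul' φ ψ := by
    ext1 x
    funext j
    exact DFunLike.congr_fun (PiTensorProduct.map_comp (fun _ : Fin m => φ.1.restrictScalars ℤ)
      (fun _ : Fin m => ψ.1.restrictScalars ℤ)) (x j)

theorem free (b : BVn) (h0 : SN0) (hfg : Group.FG Γ) (hv : VN Γ) (γ : I → Γ) (H : Subgroup Γ)
    [H.FiniteIndex] (w : I → ℕ)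
    (hw : ∀ a, ∀ h ∈ H, ⁅(γ a)⁻¹, h⁻¹⁆ ∈ Subgroup.closure (γ '' {a' | w a < w a'}))
    (m : ℕ) (J : Type) [Fintype J] : Noe fun φ => GG γ m J φ := by
  classical
  have : Fintype (Γ ⧸ H) := Fintype.ofFinite _
  have h1 : ∀ a (s : QQ H), ∃ p : I → QQ Γ, (∀ a', w a' ≤ w a → p a' = 0) ∧
      del γ p = MonoidAlgebra.of ℤ Γ (γ a) * inc H s - inc H s * MonoidAlgebra.of ℤ Γ (γ a) := by
    intro a s
    induction s using MonoidAlgebra.induction_on with
    | of h =>
      obtain ⟨p, p1, p2⟩ := cl γ _ (hw a h h.2)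
      refine ⟨MonoidAlgebra.of ℤ Γ (h * γ a) • p, fun a' ha => by simp [p1 a' (not_lt.2 ha)], ?_⟩
      rw [map_smul, p2, inc_of, smul_eq_mul, mul_sub, mul_one, ← map_mul, ← map_mul, ← map_mul,
        commutatorElement_def]
      congr 2
      group
    | add x y hx hy =>
      obtain ⟨p, p1, p2⟩ := hx
      obtain ⟨q, q1, q2⟩ := hy
      refine ⟨p + q, fun a' ha => by simp [p1 a' ha, q1 a' ha], ?_⟩
      rw [map_add, map_add, p2, q2]
      noncomm_ring
    | smul r x hx =>
      obtain ⟨p, p1, p2⟩ := hx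
      refine ⟨r • p, fun a' ha => by simp [p1 a' ha], ?_⟩
      rw [map_zsmul, map_zsmul, p2, smul_sub, mul_smul_comm, smul_mul_assoc]
  choose p p1 p2 using h1
  let φ : QQ H → Module.End (QQ Γ) (I → QQ Γ) := fun s =>
    Fintype.linearCombination (QQ Γ) fun a => Pi.single a (inc H s) + p a s
  have h2 : ∀ s x, del γ (φ s x) = del γ x * inc H s := fun s x => by
    simp only [φ, Fintype.linearCombination_apply, map_sum, map_smul, map_add, p2, del_single]
    rw [del_apply, Finset.sum_mul]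
    refine Finset.sum_congr rfl fun a _ => ?_
    rw [smul_eq_mul]
    noncomm_ring
  let β : I × (Γ ⧸ H) → QQ H →ₗ[ℤ] I → QQ Γ := fun x => LinearMap.single ℤ (fun _ => QQ Γ) x.1 ∘ₗ
    LinearMap.mulLeft ℤ (MonoidAlgebra.of ℤ Γ x.2.out) ∘ₗ (inc H).toAddMonoidHom.toIntLinearMap
  have h3 : ∀ x y, β x y = Pi.single x.1 (MonoidAlgebra.of ℤ Γ x.2.out * inc H y) := fun _ _ => rfl
  have h4 : ∀ z : I → QQ Γ, ∃ Y : I × (Γ ⧸ H) → QQ H, z = ∑ x, β x (Y x) ∧
      ∀ x, z x.1 = 0 → Y x = 0 := by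
    intro z
    choose y hy using fun a => dec H (z a)
    refine ⟨fun x => if z x.1 = 0 then 0 else y x.1 x.2, ?_, fun x hx => if_pos hx⟩
    rw [Fintype.sum_prod_type]
    conv_lhs => rw [← Finset.univ_sum_single z]
    refine Finset.sum_congr rfl fun a _ => ?_
    by_cases ha : z a = 0
    · simp [ha]
    · simp only [if_neg ha, h3]
      rw [hy a]
      exact map_sum (AddMonoidHom.single (fun _ : I => QQ Γ) a) _ _
  have h5 := noe_pi (J := J) _ (tens (m := m) β (fun x => w x.1)
    (fun s : {s : QQ H // (s.coeff.sum fun _ a => a) = 1} => s.1)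
    (fun s => (φ s.1).restrictScalars ℤ)
    (fun c hc hi => h0 H ((Group.fg_iff_subgroup_fg H).2 (b.fg Γ hfg hv H))
      (by simpa [VN, MonoidHom.comap_bot] using b.comap H Γ H.subtype ⊥ hv) m c hc
      fun n x hx s hs => hi n ⟨s, hs⟩ x hx)
    (fun z => (h4 z).imp fun _ h => h.1) fun s x y => by
      obtain ⟨Y, e1, e2⟩ := h4 ((MonoidAlgebra.of ℤ Γ x.2.out * inc H y) • p x.1 s.1)
      refine ⟨Y, ?_, fun x' hx => e2 x' (by simp [p1 _ _ _ hx])⟩
      rw [← e1, h3, h3, map_mul (inc H), ← mul_assoc]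
      simp only [φ, LinearMap.restrictScalars_apply, Fintype.linearCombination_apply_single,
        smul_add, ← Pi.single_smul, smul_eq_mul])
  exact fun c hc hi => h5 c hc fun n s x hx =>
    hi n ⟨φ s.1, inc H s.1, (eps_inc H s.1).trans s.2, h2 s.1⟩ x hx

end Grp

end SnA

open SnA in
theorem sn (b : BVn) (h0 : SN0) : SN := by
  classical
  intro Γ I _ _ γ hv hγ m J _ c hc hi
  have hfg : Group.FG Γ := Group.fg_iff.2 ⟨_, hγ, Set.finite_range γ⟩
  obtain ⟨H, K, _, κ, w, hf, hw⟩ := layers b hfg hv γ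
  obtain ⟨σ, hσ⟩ := sec γ hγ
  let i : (I → QQ Γ) →ₗ[QQ Γ] I ⊕ K → QQ Γ :=
    Fintype.linearCombination (QQ Γ) fun a => Pi.single (Sum.inl a) 1
  let ρ : (I ⊕ K → QQ Γ) →ₗ[QQ Γ] I → QQ Γ := Fintype.linearCombination (QQ Γ)
    (Sum.elim (fun a => Pi.single a 1) fun k => σ (MonoidAlgebra.of ℤ Γ (κ k)))
  have i1 : ∀ x, del (Sum.elim γ κ) (i x) = del γ x := fun x => by
    simp only [i, Fintype.linearCombination_apply, map_sum, map_smul, del_single, one_mul,
      Sum.elim_inl, smul_eq_mul, del_apply γ]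
  have r1 : ∀ x, del γ (ρ x) = del (Sum.elim γ κ) x := fun x => by
    simp only [ρ, Fintype.linearCombination_apply, map_sum, map_smul, del_apply (Sum.elim γ κ),
      smul_eq_mul]
    refine Finset.sum_congr rfl fun a _ => ?_
    rcases a with a | k
    · simp only [Sum.elim_inl, del_single, one_mul]
    · simp only [Sum.elim_inr, hσ, eps_of, Int.cast_one]
  have r2 : ∀ x, ρ (i x) = x := fun x => by
    have : ∀ a, ρ (Pi.single (Sum.inl a) 1) = Pi.single a 1 := fun a => by
      simp only [ρ, Fintype.linearCombination_apply_single, one_smul, Sum.elim_inl]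
    simp only [i, Fintype.linearCombination_apply, map_sum, map_smul, this]
    simp only [← Pi.single_smul, smul_eq_mul, mul_one, Finset.univ_sum_single]
  let π : (I → QQ Γ) →ₗ[ℤ] VV γ := LinearMap.codRestrict ((VV γ).restrictScalars ℤ)
    (LinearMap.id - σ ∘ₗ (del γ).restrictScalars ℤ) fun x => by
      change del γ (x - σ (del γ x)) = 0
      rw [map_sub, hσ, eps_del, Int.cast_zero, sub_zero, sub_self]
  have p1 : ∀ x : VV γ, π x = x := fun x => Subtype.ext (by
    change x.1 - σ (del γ x.1) = x.1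
    rw [x.2, map_zero, sub_zero])
  let ι : VV γ →ₗ[ℤ] I ⊕ K → QQ Γ := (i ∘ₗ (VV γ).subtype).restrictScalars ℤ
  let r : (I ⊕ K → QQ Γ) →ₗ[ℤ] VV γ := π ∘ₗ ρ.restrictScalars ℤ
  refine retr (fun θ : Th γ => (act θ m).compLeft J) (GG (Sum.elim γ κ) m J)
    ((PiTensorProduct.map fun _ : Fin m => ι).compLeft J)
    ((PiTensorProduct.map fun _ : Fin m => r).compLeft J) (fun x => funext fun j => ?_) ?_
    (free b h0 hfg hv _ H w hw m J) c hc fun n θ x hx => hi n θ x hx
  · have : r ∘ₗ ι = LinearMap.id := LinearMap.ext fun v => (congrArg π (r2 v.1)).trans (p1 v)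
    refine (DFunLike.congr_fun (PiTensorProduct.map_comp (fun _ : Fin m => r)
      (fun _ : Fin m => ι)) (x j)).symm.trans ?_
    rw [this, PiTensorProduct.map_id]
    rfl
  · rintro ⟨φ, u, u1, u2⟩
    let θ : Th γ := ⟨ρ ∘ₗ φ ∘ₗ i - (del γ).smulRight (σ u), fun x => by
      change del γ (ρ (φ (i x)) - del γ x • σ u) = _
      rw [map_sub, r1, u2, i1, map_smul, hσ, u1, Int.cast_one, smul_eq_mul, mul_sub, mul_one,
        sub_sub_cancel]⟩
    have : r ∘ₗ φ.restrictScalars ℤ ∘ₗ ι = (res θ).restrictScalars ℤ := LinearMap.ext fun v => by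
      refine Eq.trans (congrArg π ?_) (p1 (res θ v))
      change ρ (φ (i v.1)) = ρ (φ (i v.1)) - del γ v.1 • σ u
      rw [v.2, zero_smul, sub_zero]
    refine ⟨θ, fun x => funext fun j => ?_⟩
    change _ = PiTensorProduct.map (fun _ : Fin m => (res θ).restrictScalars ℤ) (x j)
    rw [← this, PiTensorProduct.map_comp (fun _ => r),
      PiTensorProduct.map_comp (fun _ => φ.restrictScalars ℤ)]
    rfl

end Pool.Agent.MP_5c28a4_al.H89S
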